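import Mathlib
import Pool.Agent.Helper27.Corson9

set_option autoImplicit false

open Topology

namespace Pool.Agent.Results.MP_7e5847_gt.ImagesAreCorson

/-- A topological space is Corson compact: it is compact and embeds in a Sigma-product of real
lines. -/
def IsCorson (Y : Type) [TopologicalSpace Y] : Prop :=
  CompactSpace Y ∧ ∃ (κ : Type) (e : Y → (κ → ℝ)), IsEmbedding e ∧
    ∀ y : Y, (Function.support (e y)).Countable

/-- `X` is splittable over the class of Corson compact spaces. -/
def SplittableOverCorson (X : Type) [TopologicalSpace X] : Prop :=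
  ∀ A : Set X, ∃ (Y : Type) (_ : TopologicalSpace Y), IsCorson Y ∧
    ∃ f : X → Y, Continuous f ∧ f ⁻¹' (f '' A) = A

/-- If a compact Hausdorff space `X` is splittable over the class of Corson compacta, then every
Hausdorff continuous image `Z` of `X` (in particular `X` itself) is Corson compact. -/
theorem result (X : Type) [TopologicalSpace X] [CompactSpace X] [T2Space X]
    (hX : SplittableOverCorson X) (Z : Type) [TopologicalSpace Z] [T2Space Z] (g : X → Z)
    (hg : Continuous g) (hsurj : Function.Surjective g) : IsCorson Z := by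
  have hs : Helper27.Corson.Splittable X := by
    intro A
    obtain ⟨Y, _, ⟨_, κ, e, he, hsupp⟩, f, hf, hfA⟩ := hX A
    refine ⟨κ, fun x => e (f x), ⟨he.continuous.comp hf, fun x => hsupp (f x)⟩, ?_⟩
    intro x y hxy
    have hxy' : f x = f y := he.injective hxy
    constructor
    · intro hx
      have h1 : y ∈ f ⁻¹' (f '' A) := ⟨x, hx, hxy'⟩
      rwa [hfA] at h1
    · intro hy
      have h1 : x ∈ f ⁻¹' (f '' A) := ⟨y, hy, hxy'.symm⟩
      rwa [hfA] at h1
  obtain ⟨κ, e, he, hinj⟩ := (hs.pc).image hg hsurj
  have hZc : CompactSpace Z := by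
    rw [← isCompact_univ_iff, ← hsurj.range_eq]
    exact isCompact_range hg
  exact ⟨hZc, κ, e, (he.1.isClosedEmbedding hinj).isEmbedding, he.2⟩

end Pool.Agent.Results.MP_7e5847_gt.ImagesAreCorson
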